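import Pool.Agent.K1H88.DP.Stm

set_option autoImplicit false
set_option linter.unusedSectionVars false

/-! `S_MIN`: minimisation of the product of the chordal distances. -/

namespace Pool.Agent.K1H99.DP

open Pool.Agent.K1H88.DP Module NumberField
open scoped Classical

/-! ### Generalities on ultrametric fields -/

section gen

variable {ι : Type} {E : ι → Type} [∀ k, Field (E k)] [∀ k, NumberField (E k)]
variable {K : Type} [NormedField K]

theorem vn_nonneg (x y : ∀ k, E k) (i : Emb E K) : 0 ≤ vn E x y i :=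
  le_max_of_le_left (norm_nonneg _)

theorem pl_self (x y : ∀ k, E k) (i : Emb E K) : pl E x y i i = 0 := by
  unfold pl; ring

theorem pl_swap (x y : ∀ k, E k) (i j : Emb E K) : pl E x y i j = - pl E x y j i := by
  unfold pl; ring

theorem norm_pl_swap (x y : ∀ k, E k) (i j : Emb E K) : ‖pl E x y i j‖ = ‖pl E x y j i‖ := by
  rw [pl_swap, norm_neg]

theorem ev_lin [CharZero K] (x y : ∀ k, E k) (a b : ℚ) (i : Emb E K) :
    i.2 ((a • x + b • y) i.1) = (a : K) * i.2 (x i.1) + (b : K) * i.2 (y i.1) := by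
  rw [Pi.add_apply, Pi.smul_apply, Pi.smul_apply, Rat.smul_def, Rat.smul_def, map_add, map_mul,
    map_mul, map_ratCast, map_ratCast]

theorem pl_lin [CharZero K] (x y : ∀ k, E k) (a b c d : ℚ) (i j : Emb E K) :
    pl E (a • x + b • y) (c • x + d • y) i j = ((a * d - b * c : ℚ) : K) * pl E x y i j := by
  unfold pl
  rw [ev_lin, ev_lin, ev_lin, ev_lin]
  push_cast
  ring

variable [IsUltrametricDist K]

theorem norm_sub_le {u v : K} {r : ℝ} (hu : ‖u‖ ≤ r) (hv : ‖v‖ ≤ r) : ‖u - v‖ ≤ r := by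
  rw [sub_eq_add_neg]
  exact (IsUltrametricDist.norm_add_le_max _ _).trans (max_le hu (by rwa [norm_neg]))

theorem norm_add_le {u v : K} {r : ℝ} (hu : ‖u‖ ≤ r) (hv : ‖v‖ ≤ r) : ‖u + v‖ ≤ r :=
  (IsUltrametricDist.norm_add_le_max _ _).trans (max_le hu hv)

theorem norm_pl_le (x y : ∀ k, E k) (i j : Emb E K) :
    ‖pl E x y i j‖ ≤ vn E x y i * vn E x y j := by
  unfold pl
  refine norm_sub_le ?_ ?_
  · rw [norm_mul]
    exact mul_le_mul (le_max_left _ _) (le_max_right _ _) (norm_nonneg _) (vn_nonneg _ _ _)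
  · rw [norm_mul, mul_comm]
    exact mul_le_mul (le_max_right _ _) (le_max_left _ _) (norm_nonneg _) (vn_nonneg _ _ _)

theorem plucker (x y : ∀ k, E k) (i j l : Emb E K) :
    vn E x y j * ‖pl E x y i l‖ ≤
      max (vn E x y i * ‖pl E x y j l‖) (vn E x y l * ‖pl E x y i j‖) := by
  have hA : ∀ u v w : K, u = v + w → ‖v‖ ≤ vn E x y i * ‖pl E x y j l‖ →
      ‖w‖ ≤ vn E x y l * ‖pl E x y i j‖ →
      ‖u‖ ≤ max (vn E x y i * ‖pl E x y j l‖) (vn E x y l * ‖pl E x y i j‖) := by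
    rintro u v w rfl h1 h2
    exact (IsUltrametricDist.norm_add_le_max _ _).trans (max_le_max h1 h2)
  have e1 : j.2 (x j.1) * pl E x y i l =
      i.2 (x i.1) * pl E x y j l + l.2 (x l.1) * pl E x y i j := by unfold pl; ring
  have e2 : j.2 (y j.1) * pl E x y i l =
      i.2 (y i.1) * pl E x y j l + l.2 (y l.1) * pl E x y i j := by unfold pl; ring
  have h1 := hA _ _ _ e1
    (by rw [norm_mul]; exact mul_le_mul_of_nonneg_right (le_max_left _ _) (norm_nonneg _))
    (by rw [norm_mul]; exact mul_le_mul_of_nonneg_right (le_max_left _ _) (norm_nonneg _))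
  have h2 := hA _ _ _ e2
    (by rw [norm_mul]; exact mul_le_mul_of_nonneg_right (le_max_right _ _) (norm_nonneg _))
    (by rw [norm_mul]; exact mul_le_mul_of_nonneg_right (le_max_right _ _) (norm_nonneg _))
  rw [norm_mul] at h1 h2
  unfold vn at *
  rw [max_mul_of_nonneg _ _ (norm_nonneg _)]
  exact max_le h1 h2

/-- the relation of being close -/
theorem rel_equiv (x y : ∀ k, E k) {κ : ℝ} (hκ : 0 ≤ κ) (hv : ∀ i : Emb E K, 0 < vn E x y i) :
    Equivalence fun i j : Emb E K => ‖pl E x y i j‖ ≤ κ * (vn E x y i * vn E x y j) where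
  refl i := by
    rw [pl_self, norm_zero]
    exact mul_nonneg hκ (mul_nonneg (hv i).le (hv i).le)
  symm {i j} h := by
    rw [norm_pl_swap, mul_comm (vn E x y j)]
    exact h
  trans {i j l} h1 h2 := by
    have h := plucker x y i j l
    have a1 : vn E x y i * ‖pl E x y j l‖ ≤
        vn E x y j * (κ * (vn E x y i * vn E x y l)) := by
      calc _ ≤ vn E x y i * (κ * (vn E x y j * vn E x y l)) :=
            mul_le_mul_of_nonneg_left h2 (hv i).le
        _ = _ := by ring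
    have a2 : vn E x y l * ‖pl E x y i j‖ ≤
        vn E x y j * (κ * (vn E x y i * vn E x y l)) := by
      calc _ ≤ vn E x y l * (κ * (vn E x y i * vn E x y j)) :=
            mul_le_mul_of_nonneg_left h1 (hv l).le
        _ = _ := by ring
    exact le_of_mul_le_mul_left (h.trans (max_le a1 a2)) (hv j)

end gen

/-! ### Products over pairs -/

section W

variable {I : Type} [Fintype I]

/-- the product over all ordered pairs of different elements -/
noncomputable def W (f : I → I → ℝ) : ℝ := ∏ i, ∏ j ∈ Finset.univ.erase i, f i j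

theorem W_mul (f g : I → I → ℝ) : W (fun i j => f i j * g i j) = W f * W g := by
  unfold W
  simp only [Finset.prod_mul_distrib]

theorem W_const (c : ℝ) :
    W (fun _ _ : I => c) = c ^ (Fintype.card I * (Fintype.card I - 1)) := by
  unfold W
  simp only [Finset.prod_const, Finset.card_erase_of_mem (Finset.mem_univ _), Finset.card_univ]
  rw [← pow_mul]
  ring_nf

theorem W_le (f g : I → I → ℝ) (h0 : ∀ i j, i ≠ j → 0 ≤ f i j)
    (h : ∀ i j, i ≠ j → f i j ≤ g i j) : W f ≤ W g := by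
  unfold W
  refine Finset.prod_le_prod (fun i _ => Finset.prod_nonneg fun j hj => ?_) fun i _ =>
    Finset.prod_le_prod (fun j hj => ?_) fun j hj => ?_
  · exact h0 i j (Finset.ne_of_mem_erase hj).symm
  · exact h0 i j (Finset.ne_of_mem_erase hj).symm
  · exact h i j (Finset.ne_of_mem_erase hj).symm

theorem W_one (f : I → I → ℝ) (h : ∀ i j, i ≠ j → f i j = 1) : W f = 1 := by
  unfold W
  exact Finset.prod_eq_one fun i _ => Finset.prod_eq_one fun j hj =>
    h i j (Finset.ne_of_mem_erase hj).symm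

theorem W_pair (v : I → ℝ) (hv : ∀ i, 0 < v i) (hI : 1 ≤ Fintype.card I) :
    W (fun i j => v i * v j) = (∏ i, v i) ^ (2 * (Fintype.card I - 1)) := by
  rw [W_mul]
  have h1 : W (fun i _ : I => v i) = (∏ i, v i) ^ (Fintype.card I - 1) := by
    unfold W
    simp only [Finset.prod_const, Finset.card_erase_of_mem (Finset.mem_univ _), Finset.card_univ]
    rw [Finset.prod_pow]
  have h2 : W (fun _ j : I => v j) = (∏ i, v i) ^ (Fintype.card I - 1) := by
    have hP : 0 < ∏ i, v i := Finset.prod_pos fun i _ => hv i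
    have e : ∀ i, ∏ j ∈ Finset.univ.erase i, v j = (∏ j, v j) / v i := by
      intro i
      rw [eq_div_iff (hv i).ne', mul_comm, Finset.mul_prod_erase Finset.univ v (Finset.mem_univ i)]
    unfold W
    simp only [e]
    rw [Finset.prod_div_distrib, Finset.prod_const, Finset.card_univ, div_eq_iff hP.ne',
      ← pow_succ, Nat.sub_add_cancel hI]
  rw [h1, h2, ← pow_add]
  congr 1
  omega

end W


/-! ### Norms of rational numbers -/

theorem norm_natCast_Kp (q : Nat.Primes) (n : ℕ) : ‖((n : ℕ) : Kp q)‖ = ‖((n : ℕ) : ℚ_[(q : ℕ)])‖ := by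
  rw [← PadicAlgCl.norm_extends]
  congr 1

theorem norm_p (p : Nat.Primes) : ‖(((p : ℕ) : ℕ) : Kp p)‖ = ((p : ℕ) : ℝ)⁻¹ := by
  rw [norm_natCast_Kp]
  exact Padic.norm_p

theorem norm_nat_le (q : Nat.Primes) (n : ℕ) : ‖((n : ℕ) : Kp q)‖ ≤ 1 :=
  IsUltrametricDist.norm_natCast_le_one (Kp q) n

theorem norm_int_le (q : Nat.Primes) (n : ℤ) : ‖((n : ℤ) : Kp q)‖ ≤ 1 :=
  IsUltrametricDist.norm_intCast_le_one (Kp q) n

theorem norm_nat_eq (q : Nat.Primes) {n : ℕ} (h : ¬ (q : ℕ) ∣ n) : ‖((n : ℕ) : Kp q)‖ = 1 := by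
  rw [norm_natCast_Kp]
  have : ¬ ‖((n : ℕ) : ℚ_[(q : ℕ)])‖ < 1 := by
    rw [Padic.norm_natCast_lt_one_iff]
    exact h
  refine le_antisymm ?_ (not_lt.mp this)
  have := Padic.norm_int_le_one (p := (q : ℕ)) (n : ℤ)
  rwa [Int.cast_natCast] at this

theorem norm_p_ne {p q : Nat.Primes} (h : q ≠ p) : ‖(((p : ℕ) : ℕ) : Kp q)‖ = 1 := by
  refine norm_nat_eq q fun hd => h ?_
  exact Subtype.ext ((Nat.prime_dvd_prime_iff_eq q.2 p.2).mp hd)

section main

variable {ι : Type} [Fintype ι] (E : ι → Type) [∀ k, Field (E k)] [∀ k, NumberField (E k)]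

theorem card_emb (K : Type) [NormedField K] [CharZero K] [IsAlgClosed K] :
    Fintype.card (Emb E K) = deg E := by
  rw [Fintype.card_sigma]
  unfold deg
  exact Finset.sum_congr rfl fun k _ => NumberField.Embeddings.card (E k) K

/-- good primes -/
def Good (x y : ∀ k, E k) (q : Nat.Primes) : Prop :=
  (∀ i j : Emb E (Kp q), i ≠ j → ‖pl E x y i j‖ = 1) ∧ ∀ i : Emb E (Kp q), vn E x y i = 1

theorem exists_ne' {q : Nat.Primes} (hn : 3 ≤ deg E) (i : Emb E (Kp q)) : ∃ j, j ≠ i := by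
  have : 1 < Fintype.card (Emb E (Kp q)) := by rw [card_emb]; omega
  exact Fintype.exists_ne_of_one_lt_card this i

theorem good_finite (hF : S_FIN) (hT : S_TRANS) (x y : ∀ k, E k) (hD : Distinct E x y)
    (hn : 3 ≤ deg E) : {q | ¬ Good E x y q}.Finite := by
  obtain ⟨-, hfin⟩ := hT ι E x y hD
  have hx : (⋃ k, {p : Nat.Primes | x k ≠ 0 ∧ ∃ σ : E k →+* Kp p, ‖σ (x k)‖ ≠ 1}).Finite := by
    refine Set.finite_iUnion fun k => ?_
    by_cases h : x k = 0
    · simp [h]
    · simpa [h] using hF (E k) (x k) h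
  have hy : (⋃ k, {p : Nat.Primes | y k ≠ 0 ∧ ∃ σ : E k →+* Kp p, ‖σ (y k)‖ ≠ 1}).Finite := by
    refine Set.finite_iUnion fun k => ?_
    by_cases h : y k = 0
    · simp [h]
    · simpa [h] using hF (E k) (y k) h
  refine ((hfin.union hx).union hy).subset fun q hq => ?_
  by_contra hcon
  simp only [Set.mem_union, Set.mem_iUnion, Set.mem_ofPred_eq, not_or, not_exists, not_and,
    not_not] at hcon
  obtain ⟨⟨h1, h2⟩, h3⟩ := hcon
  apply hq
  have hle : ∀ i : Emb E (Kp q), vn E x y i ≤ 1 := by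
    intro i
    refine max_le ?_ ?_
    · by_cases h : x i.1 = 0
      · rw [h, map_zero, norm_zero]; exact zero_le_one
      · exact (h2 i.1 h i.2).le
    · by_cases h : y i.1 = 0
      · rw [h, map_zero, norm_zero]; exact zero_le_one
      · exact (h3 i.1 h i.2).le
  have hpl : ∀ i j : Emb E (Kp q), i ≠ j → ‖pl E x y i j‖ = 1 := fun i j => h1 i j
  refine ⟨hpl, fun i => le_antisymm (hle i) ?_⟩
  obtain ⟨j, hj⟩ := exists_ne' E hn i
  have h4 := norm_pl_le x y i j
  rw [hpl i j hj.symm] at h4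
  have h5 := hle j
  have h6 := vn_nonneg x y i
  nlinarith

theorem vn_pos (hT : S_TRANS) (x y : ∀ k, E k) (hD : Distinct E x y) (hn : 3 ≤ deg E)
    (q : Nat.Primes) (i : Emb E (Kp q)) : 0 < vn E x y i := by
  obtain ⟨j, hj⟩ := exists_ne' E hn i
  have h1 := (hT ι E x y hD).1 q i j hj.symm
  rcases (vn_nonneg x y i).lt_or_eq with h | h
  · exact h
  · exfalso
    have h2 := norm_pl_le x y i j
    rw [← h, zero_mul] at h2
    exact h1 (norm_le_zero_iff.mp h2)

/-- the local part of the product of the inverse distances -/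
noncomputable def Dp (x y : ∀ k, E k) (q : Nat.Primes) : ℝ :=
  W fun i j : Emb E (Kp q) => vn E x y i * vn E x y j / ‖pl E x y i j‖

theorem one_le_ratio (hT : S_TRANS) (x y : ∀ k, E k) (hD : Distinct E x y)
    (q : Nat.Primes) (i j : Emb E (Kp q)) (hij : i ≠ j) :
    1 ≤ vn E x y i * vn E x y j / ‖pl E x y i j‖ := by
  rw [one_le_div (norm_pos_iff.mpr ((hT ι E x y hD).1 q i j hij))]
  exact norm_pl_le x y i j

theorem one_le_Dp (hT : S_TRANS) (x y : ∀ k, E k) (hD : Distinct E x y) (q : Nat.Primes) :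
    1 ≤ Dp E x y q := by
  have h := W_le (I := Emb E (Kp q)) (fun _ _ => (1 : ℝ))
    (fun i j => vn E x y i * vn E x y j / ‖pl E x y i j‖) (fun _ _ _ => zero_le_one)
    (fun i j hij => one_le_ratio E hT x y hD q i j hij)
  rw [W_const, one_pow] at h
  exact h

theorem Dp_good (x y : ∀ k, E k) (q : Nat.Primes) (h : Good E x y q) : Dp E x y q = 1 := by
  refine W_one _ fun i j hij => ?_
  rw [h.1 i j hij, h.2, h.2]
  norm_num

/-- the product of the inverse distances -/
noncomputable def DD (x y : ∀ k, E k) : ℝ := ∏ᶠ q : Nat.Primes, Dp E x y q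

theorem DD_eq (x y : ∀ k, E k) (T : Finset Nat.Primes) (h : ∀ q, ¬ Good E x y q → q ∈ T) :
    DD E x y = ∏ q ∈ T, Dp E x y q := by
  refine finprod_eq_prod_of_mulSupport_subset _ fun q hq => ?_
  by_contra hcon
  exact hq (Dp_good E x y q (by_contra fun hg => hcon (h q hg)))

theorem one_le_DD (hF : S_FIN) (hT : S_TRANS) (x y : ∀ k, E k) (hD : Distinct E x y)
    (hn : 3 ≤ deg E) : 1 ≤ DD E x y := by
  rw [DD_eq E x y (good_finite E hF hT x y hD hn).toFinset fun q hq => by simpa using hq]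
  exact Finset.one_le_prod fun q _ => one_le_Dp E hT x y hD q

theorem Dp_other (q : Nat.Primes) (x y : ∀ k, E k) (α β γ δ : ℚ) (hα : ‖(α : Kp q)‖ ≤ 1)
    (hβ : ‖(β : Kp q)‖ ≤ 1) (hγ : ‖(γ : Kp q)‖ ≤ 1) (hδ : ‖(δ : Kp q)‖ ≤ 1)
    (hdet : ‖((α * δ - β * γ : ℚ) : Kp q)‖ = 1) :
    Dp E (α • x + β • y) (γ • x + δ • y) q = Dp E x y q := by
  have key : ∀ (a : Kp q) (u : Kp q) (r : ℝ), ‖a‖ ≤ 1 → ‖u‖ ≤ r → ‖a * u‖ ≤ r := by
    intro a u r ha hu
    rw [norm_mul]
    nlinarith [norm_nonneg a, norm_nonneg u]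
  have hvn : ∀ i : Emb E (Kp q), vn E (α • x + β • y) (γ • x + δ • y) i = vn E x y i := by
    intro i
    have e1 := ev_lin x y α β i
    have e2 := ev_lin x y γ δ i
    apply le_antisymm
    · unfold vn
      rw [e1, e2]
      refine max_le (norm_add_le (key _ _ _ hα (le_max_left _ _)) (key _ _ _ hβ (le_max_right _ _)))
        (norm_add_le (key _ _ _ hγ (le_max_left _ _)) (key _ _ _ hδ (le_max_right _ _)))
    · have f1 : ((α * δ - β * γ : ℚ) : Kp q) * i.2 (x i.1) =
          (δ : Kp q) * i.2 ((α • x + β • y) i.1) - (β : Kp q) * i.2 ((γ • x + δ • y) i.1) := by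
        rw [e1, e2]; push_cast; ring
      have f2 : ((α * δ - β * γ : ℚ) : Kp q) * i.2 (y i.1) =
          (α : Kp q) * i.2 ((γ • x + δ • y) i.1) - (γ : Kp q) * i.2 ((α • x + β • y) i.1) := by
        rw [e1, e2]; push_cast; ring
      have g1 : ‖i.2 (x i.1)‖ = ‖((α * δ - β * γ : ℚ) : Kp q) * i.2 (x i.1)‖ := by
        rw [norm_mul, hdet, one_mul]
      have g2 : ‖i.2 (y i.1)‖ = ‖((α * δ - β * γ : ℚ) : Kp q) * i.2 (y i.1)‖ := by
        rw [norm_mul, hdet, one_mul]
      unfold vn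
      rw [g1, g2, f1, f2]
      refine max_le (norm_sub_le (key _ _ _ hδ (le_max_left _ _)) (key _ _ _ hβ (le_max_right _ _)))
        (norm_sub_le (key _ _ _ hα (le_max_right _ _)) (key _ _ _ hγ (le_max_left _ _)))
  unfold Dp
  congr 1
  funext i j
  rw [hvn, hvn, pl_lin, norm_mul, hdet, one_mul]

theorem Dp_step (hT : S_TRANS) (p : Nat.Primes) (x y : ∀ k, E k) (hD : Distinct E x y)
    (hn : 3 ≤ deg E) (S : Finset (Emb E (Kp p))) (hS : deg E < 2 * S.card) (α β γ δ : ℚ)
    (hdet : ‖((α * δ - β * γ : ℚ) : Kp p)‖ = (p : ℕ))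
    (h1 : ∀ i ∈ S, vn E (α • x + β • y) (γ • x + δ • y) i ≤ vn E x y i)
    (h2 : ∀ i : Emb E (Kp p), vn E (α • x + β • y) (γ • x + δ • y) i ≤ (p : ℕ) * vn E x y i) :
    Dp E (α • x + β • y) (γ • x + δ • y) p ≤ Dp E x y p / 4 := by
  have hcard : Fintype.card (Emb E (Kp p)) = deg E := card_emb E (Kp p)
  have hp2 : (2 : ℝ) ≤ (p : ℕ) := by exact_mod_cast p.2.two_le
  have hp0 : (0 : ℝ) < (p : ℕ) := by linarith
  set t : Emb E (Kp p) → ℝ := fun i => if i ∈ S then 1 else (p : ℕ) with ht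
  have htpos : ∀ i, 0 < t i := by
    intro i
    simp only [ht]
    split_ifs
    · exact one_pos
    · exact hp0
  have hvt : ∀ i, vn E (α • x + β • y) (γ • x + δ • y) i ≤ t i * vn E x y i := by
    intro i
    simp only [ht]
    split_ifs with h
    · rw [one_mul]; exact h1 i h
    · exact h2 i
  have hW := W_le (I := Emb E (Kp p))
    (fun i j => vn E (α • x + β • y) (γ • x + δ • y) i * vn E (α • x + β • y) (γ • x + δ • y) j /
      ‖pl E (α • x + β • y) (γ • x + δ • y) i j‖)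
    (fun i j => (t i * t j) * (((p : ℕ) : ℝ)⁻¹ * (vn E x y i * vn E x y j / ‖pl E x y i j‖)))
    (fun i j _ => div_nonneg (mul_nonneg (vn_nonneg _ _ _) (vn_nonneg _ _ _)) (norm_nonneg _))
    (fun i j hij => by
      have hpl : 0 < ‖pl E x y i j‖ := norm_pos_iff.mpr ((hT ι E x y hD).1 p i j hij)
      rw [pl_lin, norm_mul, hdet]
      have e : (t i * t j) * (((p : ℕ) : ℝ)⁻¹ * (vn E x y i * vn E x y j / ‖pl E x y i j‖)) =
          (t i * vn E x y i) * (t j * vn E x y j) / (((p : ℕ) : ℝ) * ‖pl E x y i j‖) := by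
        field_simp
      rw [e]
      refine div_le_div_of_nonneg_right ?_ (by positivity)
      exact mul_le_mul (hvt i) (hvt j) (vn_nonneg _ _ _)
        (mul_nonneg (htpos i).le (vn_nonneg _ _ _)))
  have eW1 := W_mul (I := Emb E (Kp p)) (fun i j => t i * t j)
    (fun i j => ((p : ℕ) : ℝ)⁻¹ * (vn E x y i * vn E x y j / ‖pl E x y i j‖))
  have eW2 := W_mul (I := Emb E (Kp p)) (fun _ _ => ((p : ℕ) : ℝ)⁻¹)
    (fun i j => vn E x y i * vn E x y j / ‖pl E x y i j‖)
  rw [eW1, eW2, W_pair t htpos (by omega), W_const, hcard] at hW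
  have hDp : 0 ≤ Dp E x y p := zero_le_one.trans (one_le_Dp E hT x y hD p)
  have hprod : ∏ i, t i = ((p : ℕ) : ℝ) ^ (deg E - S.card) := by
    simp only [ht]
    rw [Finset.prod_ite, Finset.prod_const_one, one_mul, Finset.prod_const]
    congr 1
    rw [← hcard, ← Finset.card_univ, ← Finset.card_sdiff_of_subset (Finset.subset_univ S)]
    congr 1
    ext i
    simp
  have hScard : S.card ≤ deg E := by
    rw [← hcard]
    exact Finset.card_le_univ S
  have hfac : (∏ i, t i) ^ (2 * (deg E - 1)) * ((p : ℕ) : ℝ)⁻¹ ^ (deg E * (deg E - 1)) ≤ 1 / 4 := by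
    rw [hprod, ← pow_mul]
    obtain ⟨n, hn'⟩ : ∃ n, deg E = n + 1 := ⟨deg E - 1, by omega⟩
    obtain ⟨u, hu⟩ : ∃ u, deg E = S.card + u := ⟨deg E - S.card, by omega⟩
    have h5 : (deg E - S.card) * (2 * (deg E - 1)) + 2 ≤ deg E * (deg E - 1) := by
      have e1 : deg E - S.card = u := by omega
      have e2 : deg E - 1 = n := by omega
      rw [e1, e2]
      have e3 : 2 * u + 1 ≤ deg E := by omega
      have e4 : 2 ≤ n := by omega
      nlinarith
    have hinv1 : ((p : ℕ) : ℝ)⁻¹ ≤ 1 := inv_le_one_of_one_le₀ (by linarith)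
    have h6 : ((p : ℕ) : ℝ)⁻¹ ^ (deg E * (deg E - 1)) ≤
        ((p : ℕ) : ℝ)⁻¹ ^ ((deg E - S.card) * (2 * (deg E - 1)) + 2) :=
      pow_le_pow_of_le_one (by positivity) hinv1 h5
    calc _ ≤ ((p : ℕ) : ℝ) ^ ((deg E - S.card) * (2 * (deg E - 1))) *
          ((p : ℕ) : ℝ)⁻¹ ^ ((deg E - S.card) * (2 * (deg E - 1)) + 2) :=
          mul_le_mul_of_nonneg_left h6 (by positivity)
      _ = ((p : ℕ) : ℝ)⁻¹ ^ 2 := by
          rw [pow_add, ← mul_assoc, ← mul_pow, mul_inv_cancel₀ hp0.ne', one_pow, one_mul]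
      _ ≤ (2 : ℝ)⁻¹ ^ 2 := by
          refine pow_le_pow_left₀ (by positivity) ?_ 2
          exact inv_anti₀ (by norm_num) hp2
      _ = 1 / 4 := by norm_num
  calc Dp E (α • x + β • y) (γ • x + δ • y) p ≤ _ := hW
    _ = ((∏ i, t i) ^ (2 * (deg E - 1)) * ((p : ℕ) : ℝ)⁻¹ ^ (deg E * (deg E - 1))) *
        Dp E x y p := by unfold Dp; ring
    _ ≤ 1 / 4 * Dp E x y p := mul_le_mul_of_nonneg_right hfac hDp
    _ = Dp E x y p / 4 := by ring

theorem distinct_lin (x y : ∀ k, E k) (hD : Distinct E x y) (α β γ δ : ℚ)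
    (hdet : α * δ - β * γ ≠ 0) : Distinct E (α • x + β • y) (γ • x + δ • y) := by
  intro i j hij
  rw [pl_lin]
  exact mul_ne_zero (by exact_mod_cast hdet) (hD i j hij)

theorem DD_step (hF : S_FIN) (hT : S_TRANS) (p : Nat.Primes) (x y : ∀ k, E k)
    (hD : Distinct E x y) (hn : 3 ≤ deg E) (α β γ δ : ℚ) (hdet0 : α * δ - β * γ ≠ 0)
    (hp : Dp E (α • x + β • y) (γ • x + δ • y) p ≤ Dp E x y p / 4)
    (hq : ∀ q, q ≠ p → Dp E (α • x + β • y) (γ • x + δ • y) q = Dp E x y q) :
    DD E (α • x + β • y) (γ • x + δ • y) ≤ DD E x y / 4 := by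
  have hD' := distinct_lin E x y hD α β γ δ hdet0
  set T : Finset Nat.Primes := insert p ((good_finite E hF hT x y hD hn).toFinset ∪
    (good_finite E hF hT _ _ hD' hn).toFinset) with hTdef
  have hT1 : ∀ q, ¬ Good E x y q → q ∈ T := by
    intro q h
    simp only [hTdef, Finset.mem_insert, Finset.mem_union, Set.Finite.mem_toFinset]
    exact Or.inr (Or.inl h)
  have hT2 : ∀ q, ¬ Good E (α • x + β • y) (γ • x + δ • y) q → q ∈ T := by
    intro q h
    simp only [hTdef, Finset.mem_insert, Finset.mem_union, Set.Finite.mem_toFinset]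
    exact Or.inr (Or.inr h)
  have hpT : p ∈ T := Finset.mem_insert_self _ _
  rw [DD_eq E x y T hT1, DD_eq E _ _ T hT2, ← Finset.mul_prod_erase T _ hpT,
    ← Finset.mul_prod_erase T (fun q => Dp E x y q) hpT]
  have e : ∏ q ∈ T.erase p, Dp E (α • x + β • y) (γ • x + δ • y) q =
      ∏ q ∈ T.erase p, Dp E x y q :=
    Finset.prod_congr rfl fun q h => hq q (Finset.ne_of_mem_erase h)
  rw [e]
  have h0 : 0 ≤ ∏ q ∈ T.erase p, Dp E x y q :=
    Finset.prod_nonneg fun q _ => zero_le_one.trans (one_le_Dp E hT x y hD q)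
  calc _ ≤ Dp E x y p / 4 * ∏ q ∈ T.erase p, Dp E x y q := mul_le_mul_of_nonneg_right hp h0
    _ = _ := by ring

/-- If a class is too large then the product of the inverse distances can be made smaller. -/
theorem improve (hF : S_FIN) (hT : S_TRANS) (hR : S_RAT) (x y : ∀ k, E k)
    (hD : Distinct E x y) (hn : 3 ≤ deg E) (p : Nat.Primes) (κ : ℝ)
    (hκ : κ = ‖(((deg E).factorial : ℕ) : Kp p)‖ / (p : ℕ)) (S : Finset (Emb E (Kp p)))
    (hS : deg E < 2 * S.card)
    (hcl : ∀ i ∈ S, ∀ j, j ∈ S ↔ ‖pl E x y i j‖ ≤ κ * (vn E x y i * vn E x y j)) :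
    ∃ α β γ δ : ℚ, α * δ - β * γ ≠ 0 ∧
      DD E (α • x + β • y) (γ • x + δ • y) ≤ DD E x y / 4 := by
  have hcard : Fintype.card (Emb E (Kp p)) = deg E := card_emb E (Kp p)
  have hp2 : (2 : ℝ) ≤ (p : ℕ) := by exact_mod_cast p.2.two_le
  have hp0 : (0 : ℝ) < (p : ℕ) := by linarith
  have hpq : ((p : ℕ) : ℚ) ≠ 0 := by exact_mod_cast p.2.ne_zero
  have hScard : S.card ≤ deg E := by
    rw [← hcard]
    exact Finset.card_le_univ S
  have hκ' : κ ≤ ‖((S.card : ℕ) : Kp p)‖ / (p : ℕ) := by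
    rw [hκ]
    refine div_le_div_of_nonneg_right ?_ hp0.le
    obtain ⟨l, hl⟩ : S.card ∣ (deg E).factorial := Nat.dvd_factorial (by omega) hScard
    rw [hl, Nat.cast_mul, norm_mul]
    have := norm_nat_le p l
    nlinarith [norm_nonneg ((S.card : ℕ) : Kp p)]
  have hvpos := vn_pos E hT x y hD hn p
  obtain ⟨m, hm⟩ := hR ι E p x y κ S (fun i => (hvpos i).ne') (by rw [hcard]; exact hS) hcl hκ'
  -- norms of the coefficients
  have hnp : ∀ u : Kp p, ‖(((1 / (p : ℕ) : ℚ)) : Kp p) * u‖ = (p : ℕ) * ‖u‖ := by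
    intro u
    rw [norm_mul]
    congr 1
    push_cast
    rw [norm_div, norm_one]
    have := norm_p p
    rw [this]
    simp
  have c1 : ∀ q, q ≠ p → ‖(((1 / (p : ℕ) : ℚ)) : Kp q)‖ ≤ 1 := by
    intro q hq
    push_cast
    rw [norm_div, norm_one, norm_p_ne hq, div_one]
  have c2 : ∀ q, q ≠ p → ‖(((-m / (p : ℕ) : ℚ)) : Kp q)‖ ≤ 1 := by
    intro q hq
    push_cast
    rw [norm_div, norm_neg, norm_p_ne hq, div_one]
    exact norm_int_le q m
  have c3 : ∀ q : Nat.Primes, ‖(((0 : ℚ)) : Kp q)‖ ≤ 1 := by intro q; simp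
  have c4 : ∀ q : Nat.Primes, ‖(((1 : ℚ)) : Kp q)‖ ≤ 1 := by intro q; simp
  have c5 : ∀ q, q ≠ p → ‖(((1 / (p : ℕ) : ℚ)) : Kp q)‖ = 1 := by
    intro q hq
    push_cast
    rw [norm_div, norm_one, norm_p_ne hq, div_one]
  have c6 : ‖(((1 / (p : ℕ) : ℚ)) : Kp p)‖ = (p : ℕ) := by
    have := hnp 1
    rwa [mul_one, norm_one, mul_one] at this
  -- the new vectors
  have hmul : ∀ u v : Kp p, ∀ r : ℝ, ‖u - m * v‖ ≤ r / (p : ℕ) →
      ‖(((1 / (p : ℕ) : ℚ)) : Kp p) * u + (((-m / (p : ℕ) : ℚ)) : Kp p) * v‖ ≤ r := by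
    intro u v r h
    have e : (((1 / (p : ℕ) : ℚ)) : Kp p) * u + (((-m / (p : ℕ) : ℚ)) : Kp p) * v =
        (((1 / (p : ℕ) : ℚ)) : Kp p) * (u - m * v) := by push_cast; ring
    rw [e, hnp]
    calc _ ≤ ((p : ℕ) : ℝ) * (r / (p : ℕ)) := mul_le_mul_of_nonneg_left h hp0.le
      _ = r := by field_simp
  have hmul2 : ∀ u v : Kp p, ∀ r : ℝ, ‖u‖ ≤ r → ‖v‖ ≤ r →
      ‖(((1 / (p : ℕ) : ℚ)) : Kp p) * u + (((-m / (p : ℕ) : ℚ)) : Kp p) * v‖ ≤ (p : ℕ) * r := by
    intro u v r hu hv
    refine hmul u v _ ?_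
    rw [mul_div_cancel_left₀ _ hp0.ne']
    refine norm_sub_le hu ?_
    rw [norm_mul]
    have := norm_int_le p m
    nlinarith [norm_nonneg ((m : ℤ) : Kp p), norm_nonneg v]
  rcases hm with hm | hm
  · refine ⟨1 / (p : ℕ), -m / (p : ℕ), 0, 1, ?_, ?_⟩
    · have : (1 / ((p : ℕ) : ℚ)) * 1 - (-m / (p : ℕ)) * 0 = 1 / (p : ℕ) := by ring
      rw [this]
      exact one_div_ne_zero hpq
    · refine DD_step E hF hT p x y hD hn _ _ _ _ ?_ ?_ ?_
      · have : (1 / ((p : ℕ) : ℚ)) * 1 - (-m / (p : ℕ)) * 0 = 1 / (p : ℕ) := by ring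
        rw [this]
        exact one_div_ne_zero hpq
      · refine Dp_step E hT p x y hD hn S hS _ _ _ _ ?_ ?_ ?_
        · have : (1 / ((p : ℕ) : ℚ)) * 1 - (-m / (p : ℕ)) * 0 = 1 / (p : ℕ) := by ring
          rw [this]
          exact c6
        · intro i hi
          unfold vn
          rw [ev_lin, ev_lin]
          refine max_le (hmul _ _ _ (hm i hi)) ?_
          simp only [Rat.cast_zero, zero_mul, Rat.cast_one, one_mul, zero_add]
          exact le_max_right _ _
        · intro i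
          unfold vn
          rw [ev_lin, ev_lin]
          refine max_le (hmul2 _ _ _ (le_max_left _ _) (le_max_right _ _)) ?_
          simp only [Rat.cast_zero, zero_mul, Rat.cast_one, one_mul, zero_add]
          have h0 := vn_nonneg x y i
          unfold vn at h0
          have h1 : ‖i.2 (y i.1)‖ ≤ max ‖i.2 (x i.1)‖ ‖i.2 (y i.1)‖ := le_max_right _ _
          nlinarith
      · intro q hq
        refine Dp_other E q x y _ _ _ _ (c1 q hq) (c2 q hq) (c3 q) (c4 q) ?_
        have : (1 / ((p : ℕ) : ℚ)) * 1 - (-m / (p : ℕ)) * 0 = 1 / (p : ℕ) := by ring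
        rw [this]
        exact c5 q hq
  · have hdet : (-m / ((p : ℕ) : ℚ)) * 0 - (1 / (p : ℕ)) * 1 = -(1 / (p : ℕ)) := by ring
    refine ⟨-m / (p : ℕ), 1 / (p : ℕ), 1, 0, ?_, ?_⟩
    · rw [hdet]
      exact neg_ne_zero.mpr (one_div_ne_zero hpq)
    · refine DD_step E hF hT p x y hD hn _ _ _ _ ?_ ?_ ?_
      · rw [hdet]
        exact neg_ne_zero.mpr (one_div_ne_zero hpq)
      · refine Dp_step E hT p x y hD hn S hS _ _ _ _ ?_ ?_ ?_
        · rw [hdet, Rat.cast_neg, norm_neg]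
          exact c6
        · intro i hi
          unfold vn
          rw [ev_lin, ev_lin, add_comm]
          refine max_le (hmul _ _ _ (hm i hi)) ?_
          simp only [Rat.cast_zero, zero_mul, Rat.cast_one, one_mul, add_zero]
          exact le_max_left _ _
        · intro i
          unfold vn
          rw [ev_lin, ev_lin, add_comm]
          refine max_le (hmul2 _ _ _ (le_max_right _ _) (le_max_left _ _)) ?_
          simp only [Rat.cast_zero, zero_mul, Rat.cast_one, one_mul, add_zero]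
          have h0 := vn_nonneg x y i
          unfold vn at h0
          have h1 : ‖i.2 (x i.1)‖ ≤ max ‖i.2 (x i.1)‖ ‖i.2 (y i.1)‖ := le_max_left _ _
          nlinarith
      · intro q hq
        refine Dp_other E q x y _ _ _ _ (c2 q hq) (c1 q hq) (c4 q) (c3 q) ?_
        rw [hdet, Rat.cast_neg, norm_neg]
        exact c5 q hq

theorem le_loc (x y : ∀ k, E k) (q : Nat.Primes) (π : Equiv.Perm (Emb E (Kp q))) :
    ∏ i, ‖pl E x y i (π i)‖ ≤ loc E (Kp q) x y :=
  le_ciSup (f := fun π : Equiv.Perm (Emb E (Kp q)) => ∏ i, ‖pl E x y i (π i)‖)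
    (Set.finite_range _).bddAbove π

theorem loc_good (hH : S_HALL) (hn : 3 ≤ deg E) (x y : ∀ k, E k) (q : Nat.Primes)
    (h : Good E x y q) : loc E (Kp q) x y = 1 := by
  have hcard : Fintype.card (Emb E (Kp q)) = deg E := card_emb E (Kp q)
  apply le_antisymm
  · refine ciSup_le fun π => ?_
    refine Finset.prod_le_one (fun i _ => norm_nonneg _) fun i _ => ?_
    by_cases hi : i = π i
    · rw [← hi, pl_self, norm_zero]; exact zero_le_one
    · exact (h.1 i (π i) hi).le
  · obtain ⟨π, hπ⟩ := hH (Emb E (Kp q)) Eq eq_equivalence (fun i => by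
      rw [hcard]
      have : Nat.card {j // i = j} = 1 := by
        rw [Nat.card_eq_fintype_card, Fintype.card_subtype_eq']
      omega)
    refine le_trans (le_of_eq ?_) (le_loc E x y q π)
    exact (Finset.prod_eq_one fun i _ => h.1 i (π i) (hπ i)).symm

/-- The local inequality for pairs without large classes. -/
theorem local_ineq (hT : S_TRANS) (x y : ∀ k, E k) (hD : Distinct E x y) (hn : 3 ≤ deg E)
    (q : Nat.Primes) (κ : ℝ) (hκ : 0 ≤ κ) (π : Equiv.Perm (Emb E (Kp q)))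
    (h : ∀ i : Emb E (Kp q), κ * (vn E x y i * vn E x y (π i)) ≤ ‖pl E x y i (π i)‖) :
    κ ^ deg E * (∏ i : Emb E (Kp q), vn E x y i) ^ 2 ≤ loc E (Kp q) x y := by
  have hcard : Fintype.card (Emb E (Kp q)) = deg E := card_emb E (Kp q)
  refine le_trans ?_ (le_loc E x y q π)
  have hv := vn_pos E hT x y hD hn q
  calc κ ^ deg E * (∏ i : Emb E (Kp q), vn E x y i) ^ 2
      = ∏ i : Emb E (Kp q), κ * (vn E x y i * vn E x y (π i)) := by
        rw [Finset.prod_mul_distrib, Finset.prod_mul_distrib, Finset.prod_const, Finset.card_univ,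
          hcard, Equiv.prod_comp π (fun i => vn E x y i), sq]
    _ ≤ _ := Finset.prod_le_prod
        (fun i _ => mul_nonneg hκ (mul_nonneg (hv i).le (hv _).le)) fun i _ => h i

end main

theorem t_MIN (hH : S_HALL) (hF : S_FIN) (hT : S_TRANS) (hU : S_UNR) (hR : S_RAT) : S_MIN := by
  intro ι _ E _ _ hodd hn
  obtain ⟨N, hN, hU⟩ := hU ι E
  set M : ℕ := N * (deg E).factorial with hM
  have hM0 : M ≠ 0 := mul_ne_zero hN (Nat.factorial_ne_zero _)
  set κ : Nat.Primes → ℝ := fun q => ‖(((deg E).factorial : ℕ) : Kp q)‖ / (q : ℕ) with hκdef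
  have hκpos : ∀ q, 0 < κ q := by
    intro q
    refine div_pos (norm_pos_iff.mpr ?_) (by exact_mod_cast q.2.pos)
    exact_mod_cast Nat.factorial_ne_zero _
  have hP0 : {q : Nat.Primes | (q : ℕ) ∣ M}.Finite := by
    refine Set.Finite.of_finite_image (f := fun q : Nat.Primes => (q : ℕ)) ?_
      (fun a _ b _ h => Subtype.ext h)
    refine (M.divisors.finite_toSet).subset ?_
    rintro _ ⟨q, hq, rfl⟩
    exact Finset.mem_coe.mpr (Nat.mem_divisors.mpr ⟨hq, hM0⟩)
  set c : Nat.Primes → ℝ := fun q => if (q : ℕ) ∣ M then κ q ^ deg E else 1 with hc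
  have hcpos : ∀ q, 0 < c q := by
    intro q
    simp only [hc]
    split_ifs
    · exact pow_pos (hκpos q) _
    · exact one_pos
  refine ⟨∏ q ∈ hP0.toFinset, c q, Finset.prod_pos fun q _ => hcpos q, fun x y hD => ?_⟩
  -- minimisation
  set V : Set ℝ := {v | ∃ a b c d : ℚ, a * d - b * c ≠ 0 ∧ v = DD E (a • x + b • y) (c • x + d • y)}
    with hV
  have hVne : V.Nonempty := ⟨_, 1, 0, 0, 1, by norm_num, rfl⟩
  have hV1 : ∀ v ∈ V, 1 ≤ v := by
    rintro v ⟨a, b, c, d, h, rfl⟩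
    exact one_le_DD E hF hT _ _ (distinct_lin E x y hD a b c d h) hn
  have hVbdd : BddBelow V := ⟨1, fun v hv => hV1 v hv⟩
  have hI : 1 ≤ sInf V := le_csInf hVne hV1
  obtain ⟨v, hv, hvlt⟩ := exists_lt_of_csInf_lt hVne (show sInf V < 3 / 2 * sInf V by linarith)
  obtain ⟨a, b, cc, d, hdet, rfl⟩ := hv
  refine ⟨a, b, cc, d, hdet, ?_⟩
  set X := a • x + b • y with hX
  set Y := cc • x + d • y with hY
  have hD' : Distinct E X Y := distinct_lin E x y hD a b cc d hdet
  -- there are no large classes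
  have hnolarge : ∀ (p : Nat.Primes) (S : Finset (Emb E (Kp p))), deg E < 2 * S.card →
      (∀ i ∈ S, ∀ j, j ∈ S ↔ ‖pl E X Y i j‖ ≤ κ p * (vn E X Y i * vn E X Y j)) → False := by
    intro p S hS hcl
    obtain ⟨α, β, γ, δ, hdet', hle⟩ := improve E hF hT hR X Y hD' hn p (κ p) rfl S hS hcl
    have hmem : DD E (α • X + β • Y) (γ • X + δ • Y) ∈ V := by
      refine ⟨α * a + β * cc, α * b + β * d, γ * a + δ * cc, γ * b + δ * d, ?_, ?_⟩
      · have e : (α * a + β * cc) * (γ * b + δ * d) - (α * b + β * d) * (γ * a + δ * cc) =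
            (α * δ - β * γ) * (a * d - b * cc) := by ring
        rw [e]
        exact mul_ne_zero hdet' hdet
      · have e1 : α • X + β • Y = (α * a + β * cc) • x + (α * b + β * d) • y := by
          rw [hX, hY]; module
        have e2 : γ • X + δ • Y = (γ * a + δ * cc) • x + (γ * b + δ * d) • y := by
          rw [hX, hY]; module
        rw [e1, e2]
    have := csInf_le hVbdd hmem
    linarith
  -- the local inequality
  have hloc : ∀ q : Nat.Primes, c q * (∏ i : Emb E (Kp q), vn E X Y i) ^ 2 ≤ loc E (Kp q) X Y := by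
    intro q
    have hcard : Fintype.card (Emb E (Kp q)) = deg E := card_emb E (Kp q)
    have hvpos := vn_pos E hT X Y hD' hn q
    have hequiv := rel_equiv X Y (hκpos q).le hvpos
    obtain ⟨π, hπ⟩ := hH (Emb E (Kp q)) _ hequiv (fun i => by
      by_contra hcon
      push Not at hcon
      rw [hcard] at hcon
      refine hnolarge q (Finset.univ.filter fun j =>
        ‖pl E X Y i j‖ ≤ κ q * (vn E X Y i * vn E X Y j)) ?_ ?_
      · rwa [Nat.card_eq_fintype_card, Fintype.card_subtype] at hcon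
      · intro i' hi' j
        rw [Finset.mem_filter] at hi' ⊢
        constructor
        · rintro ⟨-, h⟩
          exact hequiv.trans (hequiv.symm hi'.2) h
        · intro h
          exact ⟨Finset.mem_univ _, hequiv.trans hi'.2 h⟩)
    simp only [not_le] at hπ
    simp only [hc]
    split_ifs with hq
    · exact local_ineq E hT X Y hD' hn q (κ q) (hκpos q).le π fun i => (hπ i).le
    · have hq1 : ¬ (q : ℕ) ∣ N := fun h => hq (h.mul_right _)
      have hq2 : ¬ (q : ℕ) ∣ (deg E).factorial := fun h => hq (h.mul_left _)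
      have hκq : κ q = ((q : ℕ) : ℝ)⁻¹ := by
        simp only [hκdef]
        rw [norm_nat_eq q hq2, one_div]
      obtain ⟨hU1, hU2⟩ := hU q hq1 X Y
      have := local_ineq E hT X Y hD' hn q 1 zero_le_one π (fun i => by
        rw [one_mul]
        have h1 := hπ i
        rw [hκq] at h1
        obtain ⟨u, hu⟩ := (hU1 i).resolve_left (hvpos i).ne'
        obtain ⟨w, hw⟩ := (hU1 (π i)).resolve_left (hvpos _).ne'
        have hne : pl E X Y i (π i) ≠ 0 := by
          intro h0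
          rw [h0, norm_zero] at h1
          have : 0 < ((q : ℕ) : ℝ)⁻¹ * (vn E X Y i * vn E X Y (π i)) :=
            mul_pos (by rw [← hκq]; exact hκpos q) (mul_pos (hvpos i) (hvpos _))
          linarith
        obtain ⟨z, hz⟩ := (hU2 i (π i)).resolve_left hne
        have hq0 : (0 : ℝ) < (q : ℕ) := by exact_mod_cast q.2.pos
        have hq1 : (1 : ℝ) < (q : ℕ) := by exact_mod_cast q.2.one_lt
        rw [hu, hw, hz, ← zpow_neg_one, ← zpow_add₀ hq0.ne', ← zpow_add₀ hq0.ne'] at h1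
        rw [hu, hw, hz, ← zpow_add₀ hq0.ne']
        have h2 := (zpow_lt_zpow_iff_right₀ hq1).mp h1
        exact zpow_le_zpow_right₀ hq1.le (by omega))
      rwa [one_pow] at this
  -- the products
  set T : Finset Nat.Primes := hP0.toFinset ∪ (good_finite E hF hT X Y hD' hn).toFinset with hTd
  have hT1 : ∀ q, ¬ Good E X Y q → q ∈ T := by
    intro q h
    simp only [hTd, Finset.mem_union, Set.Finite.mem_toFinset]
    exact Or.inr h
  have e1 : ∏ᶠ q : Nat.Primes, ∏ i : Emb E (Kp q), vn E X Y i =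
      ∏ q ∈ T, ∏ i : Emb E (Kp q), vn E X Y i := by
    refine finprod_eq_prod_of_mulSupport_subset _ fun q hq => ?_
    by_contra hcon
    have hg : Good E X Y q := by_contra fun hg => hcon (hT1 q hg)
    exact hq (Finset.prod_eq_one fun i _ => hg.2 i)
  have e2 : ∏ᶠ q : Nat.Primes, loc E (Kp q) X Y = ∏ q ∈ T, loc E (Kp q) X Y := by
    refine finprod_eq_prod_of_mulSupport_subset _ fun q hq => ?_
    by_contra hcon
    have hg : Good E X Y q := by_contra fun hg => hcon (hT1 q hg)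
    exact hq (loc_good E hH hn X Y q hg)
  have e3 : ∏ q ∈ hP0.toFinset, c q = ∏ q ∈ T, c q := by
    refine Finset.prod_subset Finset.subset_union_left fun q _ hq => ?_
    simp only [hc]
    rw [if_neg]
    intro h
    exact hq ((Set.Finite.mem_toFinset _).mpr h)
  rw [e1, e2, e3, ← Finset.prod_pow, ← Finset.prod_mul_distrib]
  exact Finset.prod_le_prod (fun q _ => mul_nonneg (hcpos q).le (sq_nonneg _)) fun q _ => hloc q

end Pool.Agent.K1H99.DP
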